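import Mathlib

/-!
# Project SG (helper212): fundamental groups of special varieties. Statements of the parts.
-/

set_option autoImplicit false

universe u

namespace Pool.Agent.N212.SG

/-- The space `H^1(G, ℂ)` of the homomorphisms from `G` to the additive group `ℂ`. -/
abbrev H1 (G : Type*) [Group G] : Type _ := Additive G →+ ℂ

/-- The elements of `G` at which all homomorphisms from `G` to `ℂ` vanish. -/
def albKer (G : Type*) [Group G] : Subgroup G where
  carrier := {g | ∀ f : H1 G, f (Additive.ofMul g) = 0}
  one_mem' := fun f => by simp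
  mul_mem' := fun {a b} ha hb f => by simp [ofMul_mul, ha f, hb f]
  inv_mem' := fun {a} ha f => by simp [ofMul_inv, ha f]

/-- The group `G` has an abelian subgroup of finite index. -/
def VirtAbelian (G : Type*) [Group G] : Prop :=
  ∃ A : Subgroup G, A.FiniteIndex ∧ ∀ a ∈ A, ∀ b ∈ A, a * b = b * a

/-- The images of all finite-dimensional complex representations of `G` are virtually abelian. -/
def LinearImages (G : Type*) [Group G] : Prop :=
  ∀ (n : ℕ) (ρ : G →* GL (Fin n) ℂ), VirtAbelian ρ.range

/-- What is used about the fundamental group `G` of a special smooth projective variety `X`: it is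
finitely generated, and for each subgroup `H` of finite index, that is, for each connected finite
étale covering `Y → X` (which is again special):
* all complex linear representations of `H` have virtually abelian images (Campana);
* the kernel of the map from `H` to its abelianization modulo torsion, the fundamental group of the
  Albanese variety of `Y`, is finitely generated (it is the image of the fundamental group of a
  general fibre of the Albanese map of `Y`);
* the first Betti number of `H` is bounded (by `2 dim X`, as the Albanese map is surjective). -/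
structure IsSpecialGroup (G : Type u) [Group G] : Prop where
  fg : Group.FG G
  linear : ∀ H : Subgroup G, H.FiniteIndex → LinearImages H
  albanese : ∀ H : Subgroup G, H.FiniteIndex → (albKer H).FG
  betti : ∃ B : ℕ, ∀ H : Subgroup G, H.FiniteIndex → Module.finrank ℂ (H1 H) ≤ B

/-- Every infinite finitely generated subgroup of `G` has a subgroup of finite index with a
non-zero homomorphism to `ℂ` (equivalently, with infinite abelianization). -/
def Indicable (G : Type*) [Group G] : Prop :=
  ∀ S : Subgroup G, S.FG → Infinite S → ∃ L : Subgroup S, L.FiniteIndex ∧ ∃ f : H1 L, f ≠ 0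

/-- Every finitely generated non-trivial subgroup of `G` has a non-zero homomorphism to `ℂ`
(equivalently, to `ℤ`). -/
def LocallyIndicable (G : Type*) [Group G] : Prop :=
  ∀ S : Subgroup G, S.FG → S ≠ ⊥ → ∃ f : H1 S, f ≠ 0

/-- The elementary amenable groups: the smallest class that contains the finite and the abelian
groups and is closed under subgroups, quotients, extensions and directed unions. -/
inductive ElemAmenable : (G : Type u) → [Group G] → Prop
  | finite (G : Type u) [Group G] : Finite G → ElemAmenable G
  | comm (G : Type u) [Group G] : (∀ a b : G, a * b = b * a) → ElemAmenable G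
  | sub (G H : Type u) [Group G] [Group H] (f : H →* G) :
      Function.Injective f → ElemAmenable G → ElemAmenable H
  | quot (G H : Type u) [Group G] [Group H] (f : G →* H) :
      Function.Surjective f → ElemAmenable G → ElemAmenable H
  | ext (G : Type u) [Group G] (N : Subgroup G) [N.Normal] :
      ElemAmenable N → ElemAmenable (G ⧸ N) → ElemAmenable G
  | union (G : Type u) [Group G] (S : Set (Subgroup G)) :
      DirectedOn (· ≤ ·) S → (∀ g : G, ∃ H ∈ S, g ∈ H) → (∀ H ∈ S, ElemAmenable H) →
      ElemAmenable G

/-! ### The leaves -/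

/-- Representations on spaces of functions. -/
def S_REP : Prop :=
  ∀ (H : Type u) [Group H], LinearImages H → ∀ P : Submodule ℂ (H → ℂ),
    FiniteDimensional ℂ P → (∀ f ∈ P, ∀ g : H, (fun h => f (h * g)) ∈ P) →
    ∃ A : Subgroup H, A.FiniteIndex ∧ ∀ a ∈ A, ∀ b ∈ A, ∀ f ∈ P, f (a * b) = f (b * a)

/-- Common eigenvector of an abelian group. -/
def S_EIG : Prop :=
  ∀ (H : Type u) [Group H] (K : Subgroup H) [K.Normal], K.FG →
    (∀ g h : H, g * h * g⁻¹ * h⁻¹ ∈ K) → (∃ f : H1 K, f ≠ 0) →
    ∃ (χ : H1 K) (l : H →* ℂ), χ ≠ 0 ∧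
      ∀ (g : H) (k : K), χ (Additive.ofMul ⟨g * k * g⁻¹, ‹K.Normal›.conj_mem k k.2 g⟩) =
        l g * χ (Additive.ofMul k)

/-- The character of an eigenvector has finite order. -/
def S_CHAR : Prop :=
  ∀ (H : Type u) [Group H] (K : Subgroup H) [K.Normal], LinearImages H →
    (∀ g h : H, g * h * g⁻¹ * h⁻¹ ∈ K) → ∀ (χ : H1 K) (l : H →* ℂ), χ ≠ 0 →
      (∀ (g : H) (k : K), χ (Additive.ofMul ⟨g * k * g⁻¹, ‹K.Normal›.conj_mem k k.2 g⟩) =
        l g * χ (Additive.ofMul k)) → ∃ n : ℕ, n ≠ 0 ∧ ∀ g, l g ^ n = 1

/-- Coordinates on a finitely generated group modulo `albKer`. -/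
def S_COORD : Prop :=
  ∀ (H : Type u) [Group H], Group.FG H →
    ∃ (r : ℕ) (x : Fin r → Additive H →+ ℤ) (a : Fin r → H),
      (∀ i j, x i (Additive.ofMul (a j)) = if i = j then 1 else 0) ∧
      ∀ g : H, (∀ i, x i (Additive.ofMul g) = 0) ↔ g ∈ albKer H

/-- The quadratic cochain of a central extension of a free abelian group. -/
def S_COC : Prop :=
  ∀ (H : Type u) [Group H] (K : Subgroup H) [K.Normal] (r : ℕ)
    (x : Fin r → Additive H →+ ℤ) (a : Fin r → H),
    (∀ i j, x i (Additive.ofMul (a j)) = if i = j then 1 else 0) →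
    (∀ g : H, (∀ i, x i (Additive.ofMul g) = 0) ↔ g ∈ K) →
    ∀ χ : H1 K, (∀ (g : H) (k : K),
      χ (Additive.ofMul ⟨g * k * g⁻¹, ‹K.Normal›.conj_mem k k.2 g⟩) = χ (Additive.ofMul k)) →
    ∃ (c : H → ℂ) (ω : H → H → ℂ), (∀ g h, c (g * h) = c g + c h + ω g h / 2) ∧
      (∀ g g' h, ω (g * g') h = ω g h + ω g' h) ∧ (∀ g h h', ω g (h * h') = ω g h + ω g h') ∧
      (∀ g h, ω g h = -ω h g) ∧ (∀ g, ∀ k ∈ K, ω g k = 0) ∧
      ∀ k : K, c k = χ (Additive.ofMul k)

/-- There is no invariant homomorphism on `albKer H`. -/
def S_INV : Prop :=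
  ∀ (H : Type u) [Group H] [(albKer H).Normal], Group.FG H → LinearImages H →
    ∀ χ : H1 (albKer H), (∀ (g : H) (k : albKer H),
      χ (Additive.ofMul ⟨g * k * g⁻¹, ‹(albKer H).Normal›.conj_mem k k.2 g⟩) =
        χ (Additive.ofMul k)) → χ = 0

/-- In a finitely generated group, a subgroup of finite index contains a characteristic subgroup
of finite index. -/
def S_CORE : Prop :=
  ∀ (K : Type u) [Group K], Group.FG K → ∀ L : Subgroup K, L.FiniteIndex →
    ∃ L' : Subgroup K, L' ≤ L ∧ L'.FiniteIndex ∧ L'.Characteristic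

/-- A finitely generated group `C` with a finite normal subgroup `F` and `C / F` abelian and
torsion-free has a subgroup of finite index that meets `F` in `1`. -/
def S_SPLIT : Prop :=
  ∀ (C : Type u) [Group C], Group.FG C → ∀ (F : Subgroup C) [F.Normal], Finite F →
    (∀ g h : C, g * h * g⁻¹ * h⁻¹ ∈ F) → (∀ (g : C) (n : ℕ), n ≠ 0 → g ^ n ∈ F → g ∈ F) →
    ∃ D : Subgroup C, D.FiniteIndex ∧ D ⊓ F = ⊥

/-- Restriction to subgroups of finite index. -/
def S_RES : Prop :=
  ∀ (G : Type u) [Group G], Group.FG G → ∀ H : Subgroup G, H.FiniteIndex →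
    Module.finrank ℂ (H1 G) ≤ Module.finrank ℂ (H1 H) ∧
    (Module.finrank ℂ (H1 G) = Module.finrank ℂ (H1 H) →
      ∀ h : H, h ∈ albKer H ↔ (h : G) ∈ albKer G)

/-- For a virtually abelian finitely generated group, `albKer` is finite. -/
def S_FIN : Prop :=
  ∀ (G : Type u) [Group G], Group.FG G → VirtAbelian G →
    (∀ H : Subgroup G, H.FiniteIndex → Module.finrank ℂ (H1 H) = Module.finrank ℂ (H1 G)) →
    Finite (albKer G)

/-- Elementary amenable groups. -/
def S_EA : Prop := ∀ (G : Type u) [Group G], ElemAmenable G → Indicable G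

/-- Virtually locally indicable groups. -/
def S_LI : Prop :=
  ∀ (G : Type u) [Group G] (A : Subgroup G), A.FiniteIndex → LocallyIndicable A → Indicable G

end Pool.Agent.N212.SG
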