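import Pool.Agent.N212.SG.Stm

/-!
# Project SG: assembly
-/

set_option autoImplicit false

universe u

namespace Pool.Agent.N212.SG

/-! ### Transport along isomorphisms -/

/-- `H^1` of isomorphic groups. -/
noncomputable def h1Equiv {G H : Type*} [Group G] [Group H] (e : G ≃* H) : H1 H ≃ₗ[ℂ] H1 G where
  toFun f := f.comp (MonoidHom.toAdditive e.toMonoidHom)
  invFun f := f.comp (MonoidHom.toAdditive e.symm.toMonoidHom)
  map_add' _ _ := rfl
  map_smul' _ _ := rfl
  left_inv f := by
    ext x
    change f (Additive.ofMul (e (e.symm (Additive.toMul x)))) = f x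
    rw [e.apply_symm_apply]; rfl
  right_inv f := by
    ext x
    change f (Additive.ofMul (e.symm (e (Additive.toMul x)))) = f x
    rw [e.symm_apply_apply]; rfl

theorem mem_albKer {G : Type*} [Group G] {g : G} :
    g ∈ albKer G ↔ ∀ f : H1 G, f (Additive.ofMul g) = 0 := Iff.rfl

theorem mem_albKer_equiv {G H : Type*} [Group G] [Group H] (e : G ≃* H) (g : G) :
    e g ∈ albKer H ↔ g ∈ albKer G := by
  constructor
  · intro h f
    have := h ((h1Equiv e).symm f)
    change f (Additive.ofMul (e.symm (e g))) = 0 at this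
    rwa [e.symm_apply_apply] at this
  · intro h f
    exact h (h1Equiv e f)

theorem albKer_map_equiv {G H : Type*} [Group G] [Group H] (e : G ≃* H) :
    (albKer G).map e.toMonoidHom = albKer H := by
  ext x
  constructor
  · rintro ⟨g, hg, rfl⟩
    exact (mem_albKer_equiv e g).2 hg
  · intro hx
    refine ⟨e.symm x, ?_, e.apply_symm_apply x⟩
    have : e (e.symm x) ∈ albKer H := by rwa [e.apply_symm_apply]
    exact (mem_albKer_equiv e _).1 this

theorem albKer_fg_equiv {G H : Type*} [Group G] [Group H] (e : G ≃* H) (h : (albKer G).FG) :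
    (albKer H).FG := by
  classical
  rw [← albKer_map_equiv e]
  obtain ⟨S, hS⟩ := h
  exact ⟨S.image e.toMonoidHom, by rw [Finset.coe_image, ← MonoidHom.map_closure, hS]⟩

theorem linearImages_equiv {G H : Type*} [Group G] [Group H] (e : G ≃* H)
    (h : LinearImages G) : LinearImages H := by
  intro n ρ
  have h1 := h n (ρ.comp e.toMonoidHom)
  have hr : (ρ.comp e.toMonoidHom).range = ρ.range := by
    ext x
    constructor
    · rintro ⟨g, rfl⟩
      exact ⟨e g, rfl⟩
    · rintro ⟨g, rfl⟩
      exact ⟨e.symm g, by simp⟩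
  rwa [hr] at h1

/-! ### Subgroups of finite index -/

theorem map_finiteIndex {G : Type*} [Group G] {H : Subgroup G} (hH : H.FiniteIndex)
    {H' : Subgroup H} (h' : H'.FiniteIndex) : (H'.map H.subtype).FiniteIndex := by
  rw [Subgroup.finiteIndex_iff, Subgroup.index_map_subtype]
  exact Nat.mul_ne_zero h'.index_ne_zero hH.index_ne_zero

/-- The first Betti number is maximal among the subgroups of finite index. -/
def MaxBetti (G : Type*) [Group G] : Prop :=
  ∀ H : Subgroup G, H.FiniteIndex → Module.finrank ℂ (H1 H) ≤ Module.finrank ℂ (H1 G)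

theorem isSpecial_sub {G : Type u} [Group G] (hG : IsSpecialGroup G) {H : Subgroup G}
    (hH : H.FiniteIndex) : IsSpecialGroup H where
  fg := by
    have := hG.fg
    exact Subgroup.fg_of_index_ne_zero H
  linear H' h' := linearImages_equiv
    (H'.equivMapOfInjective H.subtype H.subtype_injective).symm
    (hG.linear _ (map_finiteIndex hH h'))
  albanese H' h' := albKer_fg_equiv
    (H'.equivMapOfInjective H.subtype H.subtype_injective).symm
    (hG.albanese _ (map_finiteIndex hH h'))
  betti := by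
    obtain ⟨B, hB⟩ := hG.betti
    refine ⟨B, fun H' h' => ?_⟩
    rw [← (h1Equiv (H'.equivMapOfInjective H.subtype H.subtype_injective)).finrank_eq]
    exact hB _ (map_finiteIndex hH h')

theorem exists_maxBetti {G : Type u} [Group G] (hG : IsSpecialGroup G) :
    ∃ H : Subgroup G, H.FiniteIndex ∧ MaxBetti H := by
  obtain ⟨B, hB⟩ := hG.betti
  let S : Set ℕ := {n | ∃ H : Subgroup G, H.FiniteIndex ∧ Module.finrank ℂ (H1 H) = n}
  have hne : S.Nonempty := ⟨_, ⊤, inferInstance, rfl⟩
  have hbd : BddAbove S := ⟨B, by rintro n ⟨H, hH, rfl⟩; exact hB H hH⟩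
  obtain ⟨H, hH, he⟩ := Nat.sSup_mem hne hbd
  refine ⟨H, hH, fun H' h' => ?_⟩
  rw [he]
  refine le_csSup hbd ⟨H'.map H.subtype, map_finiteIndex hH h', ?_⟩
  exact (h1Equiv (H'.equivMapOfInjective H.subtype H.subtype_injective)).finrank_eq

instance albKer_normal (G : Type*) [Group G] : (albKer G).Normal where
  conj_mem k hk g f := by
    have := hk f
    rw [ofMul_mul, ofMul_mul, ofMul_inv, map_add, map_add, map_neg, this]
    ring

theorem comm_mem_albKer {G : Type*} [Group G] (g h : G) : g * h * g⁻¹ * h⁻¹ ∈ albKer G := by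
  intro f
  rw [ofMul_mul, ofMul_mul, ofMul_mul, ofMul_inv, ofMul_inv, map_add, map_add, map_add, map_neg,
    map_neg]
  ring

theorem pow_mem_albKer {G : Type*} [Group G] {g : G} {n : ℕ} (hn : n ≠ 0)
    (h : g ^ n ∈ albKer G) : g ∈ albKer G := by
  intro f
  have := h f
  rw [ofMul_pow, map_nsmul, nsmul_eq_mul] at this
  exact (mul_eq_zero.1 this).resolve_left (by exact_mod_cast hn)

/-- Betti numbers and Albanese kernels of the subgroups of finite index, when the Betti number is
maximal. -/
theorem maxBetti_sub (hres : S_RES.{u}) {G : Type u} [Group G] (hfg : Group.FG G)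
    (hm : MaxBetti G) {H : Subgroup G} (hH : H.FiniteIndex) :
    MaxBetti H ∧ Module.finrank ℂ (H1 G) = Module.finrank ℂ (H1 H) ∧
      ∀ h : H, h ∈ albKer H ↔ (h : G) ∈ albKer G := by
  obtain ⟨h1, h2⟩ := hres G hfg H hH
  have he := le_antisymm h1 (hm H hH)
  refine ⟨fun H' h' => ?_, he, h2 he⟩
  rw [← he, ← (h1Equiv (H'.equivMapOfInjective H.subtype H.subtype_injective)).finrank_eq]
  exact hm _ (map_finiteIndex hH h')

/-! ### The kernel has finite abelianizations -/

/-- All subgroups of finite index of the Albanese kernel have finite abelianizations. -/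
theorem albKer_fab (hrep : S_EIG.{u}) (hchar : S_CHAR.{u}) (hinv : S_INV.{u}) (hcore : S_CORE.{u})
    (hsplit : S_SPLIT.{u}) (hres : S_RES.{u}) {G : Type u} [Group G] (hG : IsSpecialGroup G)
    (hK : (albKer G).FG) (hm : MaxBetti G) (L : Subgroup (albKer G)) (hL : L.FiniteIndex)
    (f : H1 L) : f = 0 := by
  by_contra hf
  have hfgG := hG.fg
  -- a characteristic subgroup
  obtain ⟨L', hL'L, hL', hchar'⟩ := hcore (albKer G) ((Group.fg_iff_subgroup_fg _).2 hK) L hL
  let N : Subgroup G := L'.map (albKer G).subtype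
  have hNn : N.Normal := inferInstanceAs (Subgroup.map _ L').Normal
  have hN : ∀ k : albKer G, (k : G) ∈ N ↔ k ∈ L' := by
    intro k
    constructor
    · rintro ⟨y, hy, hyk⟩
      have : y = k := Subtype.ext hyk
      exact this ▸ hy
    · exact fun h => ⟨k, h, rfl⟩
  have hNK : ∀ g ∈ N, g ∈ albKer G := by
    rintro g ⟨y, _, rfl⟩
    exact y.2
  let φ : albKer G →* G ⧸ N := (QuotientGroup.mk' N).comp (albKer G).subtype
  have hφker : φ.ker = L' := by
    ext k
    rw [MonoidHom.mem_ker]
    change ((k : G) : G ⧸ N) = 1 ↔ _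
    rw [QuotientGroup.eq_one_iff, hN]
  have hmemF : ∀ g : G, (g : G ⧸ N) ∈ φ.range ↔ g ∈ albKer G := by
    intro g
    constructor
    · rintro ⟨k, hk⟩
      have hk' : ((k : G) : G ⧸ N) = (g : G ⧸ N) := hk
      rw [QuotientGroup.eq] at hk'
      have := (albKer G).mul_mem k.2 (hNK _ hk')
      simpa using this
    · exact fun h => ⟨⟨g, h⟩, rfl⟩
  have hFn : φ.range.Normal := by
    refine ⟨fun x hx y => ?_⟩
    obtain ⟨g, rfl⟩ := QuotientGroup.mk_surjective x
    obtain ⟨h, rfl⟩ := QuotientGroup.mk_surjective y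
    rw [hmemF] at hx
    have := (albKer_normal G).conj_mem g hx h
    exact (hmemF (h * g * h⁻¹)).2 this
  have hFfin : Finite φ.range := by
    have : φ.ker.FiniteIndex := hφker ▸ hL'
    exact Finite.of_equiv _ (QuotientGroup.quotientKerEquivRange φ).toEquiv
  have hfgQ : Group.FG (G ⧸ N) := QuotientGroup.fg N
  obtain ⟨D, hD, hDF⟩ := hsplit (G ⧸ N) hfgQ φ.range hFfin
    (by
      intro x y
      obtain ⟨g, rfl⟩ := QuotientGroup.mk_surjective x
      obtain ⟨h, rfl⟩ := QuotientGroup.mk_surjective y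
      exact (hmemF (g * h * g⁻¹ * h⁻¹)).2 (comm_mem_albKer g h))
    (by
      intro x n hn hx
      obtain ⟨g, rfl⟩ := QuotientGroup.mk_surjective x
      rw [hmemF]
      exact pow_mem_albKer hn ((hmemF (g ^ n)).1 hx))
  -- the finite index subgroup
  let H' : Subgroup G := D.comap (QuotientGroup.mk' N)
  have hH' : H'.FiniteIndex := by
    rw [Subgroup.finiteIndex_iff]
    change (D.comap (QuotientGroup.mk' N)).index ≠ 0
    rw [Subgroup.index_comap_of_surjective D (QuotientGroup.mk'_surjective N)]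
    exact hD.index_ne_zero
  have hNH' : ∀ g ∈ N, g ∈ H' := by
    intro g hg
    change (g : G ⧸ N) ∈ D
    rw [(QuotientGroup.eq_one_iff g).2 hg]
    exact D.one_mem
  have hKH' : ∀ g ∈ H', g ∈ albKer G → g ∈ N := by
    intro g hg hgK
    have h1 : (g : G ⧸ N) ∈ D ⊓ φ.range := ⟨hg, (hmemF g).2 hgK⟩
    rw [hDF, Subgroup.mem_bot] at h1
    exact (QuotientGroup.eq_one_iff g).1 h1
  obtain ⟨hm', -, hres'⟩ := maxBetti_sub hres hfgG hm hH'
  have hG' := isSpecial_sub hG hH'
  have hK' := hG.albanese H' hH'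
  -- a nonzero homomorphism on the Albanese kernel of `H'`
  have hmemL : ∀ k : albKer H', ∃ h : ((k : H') : G) ∈ albKer G,
      (⟨((k : H') : G), h⟩ : albKer G) ∈ L := by
    intro k
    have h1 : ((k : H') : G) ∈ albKer G := (hres' k).1 k.2
    exact ⟨h1, hL'L ((hN ⟨_, h1⟩).1 (hKH' _ (k : H').2 h1))⟩
  let ψ : albKer H' →* L :=
    { toFun := fun k => ⟨⟨((k : H') : G), (hmemL k).1⟩, (hmemL k).2⟩
      map_one' := rfl
      map_mul' := fun _ _ => rfl }
  obtain ⟨χ, l, hχ, hχl⟩ := hrep H' (albKer H') hK' (fun g h => comm_mem_albKer g h) (by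
    refine ⟨f.comp (MonoidHom.toAdditive ψ), fun h0 => hf ?_⟩
    ext x
    obtain ⟨n, hn, -, hx⟩ := Subgroup.exists_pow_mem_of_index_ne_zero hL'.index_ne_zero
      ((Additive.toMul x : L) : albKer G)
    have hxN : ((((Additive.toMul x : L) : albKer G) ^ n : albKer G) : G) ∈ N := (hN _).2 hx
    have hxH := hNH' _ hxN
    have hxA : (⟨_, hxH⟩ : H') ∈ albKer H' := (hres' _).2 (hNK _ hxN)
    have h1 : f (Additive.ofMul (ψ ⟨⟨_, hxH⟩, hxA⟩)) = 0 := DFunLike.congr_fun h0
      (Additive.ofMul (⟨⟨_, hxH⟩, hxA⟩ : albKer H'))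
    have h2 : ψ ⟨⟨_, hxH⟩, hxA⟩ = (Additive.toMul x : L) ^ n := rfl
    rw [h2, ofMul_pow, map_nsmul, nsmul_eq_mul] at h1
    exact (mul_eq_zero.1 h1).resolve_left (by exact_mod_cast hn.ne'))
  obtain ⟨n, hn, hln⟩ := hchar H' (albKer H') (by
    have := hG.linear H' hH'
    exact this) (fun g h => comm_mem_albKer g h) χ l hχ hχl
  have hl1 : ∀ k : albKer H', l k = 1 := by
    intro k
    obtain ⟨y, hy⟩ : ∃ y : albKer H', χ (Additive.ofMul y) ≠ 0 := by
      by_contra hcon
      push Not at hcon
      apply hχ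
      ext y
      exact hcon (Additive.toMul y)
    have h1 := hχl k y
    have h2 : χ (Additive.ofMul (⟨(k : H') * y * (k : H')⁻¹,
        (albKer_normal H').conj_mem y y.2 k⟩ : albKer H')) = χ (Additive.ofMul y) := by
      have : (⟨(k : H') * y * (k : H')⁻¹, (albKer_normal H').conj_mem y y.2 k⟩ : albKer H') =
        k * y * k⁻¹ := rfl
      rw [this, ofMul_mul, ofMul_mul, ofMul_inv, map_add, map_add, map_neg]
      ring
    rw [h2] at h1
    have h3 : (l k - 1) * χ (Additive.ofMul y) = 0 := by rw [sub_mul, ← h1]; ring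
    exact sub_eq_zero.1 ((mul_eq_zero.1 h3).resolve_right hy)
  -- the kernel of the character
  have hker : l.ker.FiniteIndex := by
    let lr : H' →* rootsOfUnity n ℂ := l.toHomUnits.codRestrict (rootsOfUnity n ℂ) (by
      intro g
      rw [mem_rootsOfUnity]
      ext
      simpa using hln g)
    have : NeZero n := ⟨hn⟩
    have h1 : lr.ker.FiniteIndex := inferInstance
    have h2 : lr.ker = l.ker := by
      ext g
      rw [MonoidHom.mem_ker, MonoidHom.mem_ker]
      constructor
      · intro h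
        have := congrArg (fun z : rootsOfUnity n ℂ => ((z : ℂˣ) : ℂ)) h
        simpa [lr] using this
      · intro h
        apply Subtype.ext
        apply Units.ext
        simpa [lr] using h
    rwa [h2] at h1
  obtain ⟨-, -, hres2⟩ := maxBetti_sub hres hG'.fg hm' hker
  have hker1 : ∀ k : albKer H', (k : H') ∈ l.ker := fun k => hl1 k
  let ι : albKer l.ker →* albKer H' :=
    { toFun := fun k => ⟨((k : l.ker) : H'), (hres2 k).1 k.2⟩
      map_one' := rfl
      map_mul' := fun _ _ => rfl }
  have hz := hinv l.ker (isSpecial_sub hG' hker).fg (hG'.linear _ hker)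
    (χ.comp (MonoidHom.toAdditive ι)) (by
      intro g k
      have h1 := hχl (g : H') (ι k)
      have h2 : l (g : H') = 1 := g.2
      rw [h2, one_mul] at h1
      exact h1)
  apply hχ
  ext x
  have hx : (⟨((Additive.toMul x : albKer H') : H'), hker1 _⟩ : l.ker) ∈ albKer l.ker :=
    (hres2 _).2 (Additive.toMul x : albKer H').2
  exact DFunLike.congr_fun hz (Additive.ofMul (⟨_, hx⟩ : albKer l.ker))

/-! ### Virtually abelian groups -/

theorem virtAbelian_of_sub {G : Type*} [Group G] {H : Subgroup G} (hH : H.FiniteIndex)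
    (h : VirtAbelian H) : VirtAbelian G := by
  obtain ⟨A, hA, hc⟩ := h
  refine ⟨A.map H.subtype, map_finiteIndex hH hA, ?_⟩
  rintro _ ⟨a, ha, rfl⟩ _ ⟨b, hb, rfl⟩
  rw [← map_mul, ← map_mul, hc a ha b hb]

theorem virtAbelian_sub {G : Type*} [Group G] (H : Subgroup G) (h : VirtAbelian G) :
    VirtAbelian H := by
  obtain ⟨A, hA, hc⟩ := h
  refine ⟨A.subgroupOf H, inferInstance, ?_⟩
  intro a ha b hb
  exact Subtype.ext (hc a ha b hb)

/-- The group is virtually abelian if the Albanese kernel is finite. -/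
theorem virtAbelian_of_finite (hsplit : S_SPLIT.{u}) {G : Type u} [Group G] (hfg : Group.FG G)
    (hfin : Finite (albKer G)) : VirtAbelian G := by
  obtain ⟨D, hD, hDK⟩ := hsplit G hfg (albKer G) hfin (fun g h => comm_mem_albKer g h)
    (fun g n hn h => pow_mem_albKer hn h)
  refine ⟨D, hD, fun a ha b hb => ?_⟩
  have h1 : a * b * a⁻¹ * b⁻¹ ∈ D ⊓ albKer G :=
    ⟨D.mul_mem (D.mul_mem (D.mul_mem ha hb) (D.inv_mem ha)) (D.inv_mem hb), comm_mem_albKer a b⟩
  rw [hDK, Subgroup.mem_bot, mul_inv_eq_one, mul_inv_eq_iff_eq_mul] at h1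
  exact h1

/-- The structure of the fundamental groups of special varieties. -/
theorem main (heig : S_EIG.{u}) (hchar : S_CHAR.{u}) (hinv : S_INV.{u}) (hcore : S_CORE.{u})
    (hsplit : S_SPLIT.{u}) (hres : S_RES.{u}) (hfin : S_FIN.{u})
    {G : Type u} [Group G] (hG : IsSpecialGroup G) :
    (∃ H : Subgroup G, H.FiniteIndex ∧ (albKer H).FG ∧
      (∀ L : Subgroup (albKer H), L.FiniteIndex → ∀ f : H1 L, f = 0) ∧
      (VirtAbelian G ↔ Finite (albKer H))) := by
  obtain ⟨H, hH, hm⟩ := exists_maxBetti hG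
  have hGH := isSpecial_sub hG hH
  have hK := hG.albanese H hH
  refine ⟨H, hH, hK, fun L hL f => albKer_fab heig hchar hinv hcore hsplit hres hGH hK hm L hL f,
    fun h => ?_, fun h => virtAbelian_of_sub hH (virtAbelian_of_finite hsplit hGH.fg h)⟩
  exact hfin H hGH.fg (virtAbelian_sub H h) fun H' h' =>
    (maxBetti_sub hres hGH.fg hm h').2.1.symm

theorem virtAbelian_of_indicable (heig : S_EIG.{u}) (hchar : S_CHAR.{u}) (hinv : S_INV.{u})
    (hcore : S_CORE.{u}) (hsplit : S_SPLIT.{u}) (hres : S_RES.{u}) (hfin : S_FIN.{u})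
    {G : Type u} [Group G] (hG : IsSpecialGroup G) (hI : Indicable G) : VirtAbelian G := by
  obtain ⟨H, -, hK, hfab, hiff⟩ := main heig hchar hinv hcore hsplit hres hfin hG
  rw [hiff]
  by_contra hinf
  rw [not_finite_iff_infinite] at hinf
  let e := (albKer H).equivMapOfInjective H.subtype H.subtype_injective
  have hfg : ((albKer H).map H.subtype).FG := by
    classical
    obtain ⟨S, hS⟩ := hK
    exact ⟨S.image H.subtype, by rw [Finset.coe_image, ← MonoidHom.map_closure, hS]⟩
  have hi : Infinite ((albKer H).map H.subtype) := Infinite.of_injective e e.injective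
  obtain ⟨L, hL, f, hf⟩ := hI _ hfg hi
  apply hf
  -- transport to a subgroup of `albKer H`
  let L1 : Subgroup (albKer H) := L.comap e.toMonoidHom
  have hL1 : L1.FiniteIndex := by
    rw [Subgroup.finiteIndex_iff]
    change (L.comap e.toMonoidHom).index ≠ 0
    rw [Subgroup.index_comap_of_surjective L e.surjective]
    exact hL.index_ne_zero
  let ψ : L →* L1 :=
    { toFun := fun x => ⟨e.symm x, by
        change e (e.symm x) ∈ L
        rw [e.apply_symm_apply]; exact x.2⟩
      map_one' := Subtype.ext (map_one e.symm)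
      map_mul' := fun x y => Subtype.ext (map_mul e.symm x.1 y.1) }
  let ψ' : L1 →* L :=
    { toFun := fun x => ⟨e x, x.2⟩
      map_one' := Subtype.ext (map_one e)
      map_mul' := fun x y => Subtype.ext (map_mul e x.1 y.1) }
  have h0 := hfab L1 hL1 (f.comp (MonoidHom.toAdditive ψ'))
  ext x
  have h1 := DFunLike.congr_fun h0 (Additive.ofMul (ψ (Additive.toMul x)))
  have h2 : ψ' (ψ (Additive.toMul x)) = Additive.toMul x := by
    apply Subtype.ext
    exact e.apply_symm_apply _
  change f (Additive.ofMul (ψ' (ψ (Additive.toMul x)))) = 0 at h1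
  rw [h2] at h1
  exact h1

end Pool.Agent.N212.SG
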